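import Pool.Agent.TH668.PR.Rough

set_option autoImplicit false

/-!
# Primitive roots for every prime `p` such that `p - 1` has no odd prime factor below `p ^ ε`

Unconditionally and without any exception, for every large prime `p` which is not `1` modulo `8` and
such that all odd prime factors of `p - 1` are at least `p ^ ε`, a deterministic polynomial-time
algorithm (which does not know the factorisation of `p - 1`) computes a list almost all of whose
entries are primitive roots modulo `p`. More generally this holds for every prime `p` such that for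
each prime factor `l < p ^ ε` of `p - 1` there is an `l`-th power nonresidue below a fixed power of
the number of digits.
-/

namespace Pool.Agent.Results.MP_18a8a6_lc.EveryRoughPrime

open Finset Pool.Agent.NPC Pool.Agent.H595R2.PR Pool.Agent.TH668.PR

/-- `F` is computable in polynomial time: some function on bit strings computed by a Turing machine
(Mathlib's `TM2ComputableInPolyTime`) in polynomially many steps sends the binary digits of `p` to
the code of the list `F p`. -/
def PolyTimeList (F : ℕ → List ℕ) : Prop :=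
  ∃ f : List Bool → List Bool, NPC.PolyTime f ∧ ∀ p : ℕ, f (Nat.bits p) = NPC.bits (F p)

/-- `g` is a primitive root modulo `p` -/
def IsPrimRoot (p g : ℕ) : Prop := orderOf (g : ZMod p) = p - 1

open Classical in
/-- For every `ε > 0` and `B` there are `A`, `C` and a polynomial-time computable list `F p` of
`n ^ C` numbers, `n = size p` the number of binary digits of `p`, such that for every large prime
`p` all but a fraction `n ^ (-B)` of the entries of `F p` are primitive roots modulo `p`, if

* every prime factor `l < p ^ ε` of `p - 1` has an `l`-th power nonresidue `i ≤ n ^ A`, or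
* `p` is not `1` modulo `8`, and every odd prime factor of `p - 1` is at least `p ^ ε`. -/
theorem result (ε : ℝ) (hε : 0 < ε) (B : ℕ) :
    ∃ (A C : ℕ) (F : ℕ → List ℕ), PolyTimeList F ∧ (∀ p : ℕ, (F p).length = p.size ^ C) ∧
      ∃ p₀ : ℕ, ∀ p : ℕ, p₀ ≤ p → p.Prime →
        ((∀ l : ℕ, l.Prime → l ∣ p - 1 → (l : ℝ) < (p : ℝ) ^ ε →
            ∃ i : ℕ, 1 ≤ i ∧ i ≤ p.size ^ A ∧ (i : ZMod p) ^ ((p - 1) / l) ≠ 1) ∨
          (p % 8 ≠ 1 ∧ ∀ l : ℕ, l.Prime → l ∣ p - 1 → l ≠ 2 → (p : ℝ) ^ ε ≤ l)) →
        p.size ^ B * #{i ∈ range (F p).length | ¬ IsPrimRoot p ((F p).getD i 0)} ≤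
          (F p).length := by
  obtain ⟨A₀, hA₀⟩ := Gam_large ε hε
  set A := A₀ + 1 with hA
  obtain ⟨p₁, hp₁⟩ := hA₀ A (by omega)
  obtain ⟨p₀, hp₀⟩ := core A (A + B + 1)
  obtain ⟨p₂, hp₂⟩ := pow_size_lt A
  have hlen : ∀ p : ℕ, (fixed A (A + B + 1) p).length = p.size ^ (A + B + 1) := fun p => by
    simp [fixed, cands]
  refine ⟨A, A + B + 1, fixed A (A + B + 1), polyTime_fixed A (A + B + 1), hlen,
    p₀ + p₁ + p₂ + 3, fun p hp hpp h => ?_⟩
  have : Fact p.Prime := ⟨hpp⟩
  have hY : p.size ^ A < p := hp₂ p (by omega)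
  have hsz : 2 ≤ p.size := by
    have : 1 < p.size := Nat.lt_size.2 (by omega)
    omega
  have hY2 : 2 ≤ p.size ^ A := by
    calc 2 ≤ p.size := hsz
      _ = p.size ^ 1 := (pow_one _).symm
      _ ≤ p.size ^ A := Nat.pow_le_pow_right (by omega) (by omega)
  have hidx := index_cases ε (p.size ^ A) hY hY2 (hp₁ p (by omega) hpp) (by omega) h
  have hcore := hp₀ p (by omega) hpp
  have hbad : #{i ∈ range (fixed A (A + B + 1) p).length |
      ¬ IsPrimRoot p ((fixed A (A + B + 1) p).getD i 0)} ≤ p.size ^ A * p.size := by
    rw [hlen]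
    refine le_trans (card_le_card ?_) hcore
    intro i hi
    obtain ⟨h1, h2⟩ := mem_filter.1 hi
    refine mem_filter.2 ⟨h1, fun hg => h2 ?_⟩
    obtain ⟨u, hu1, hu2⟩ := hg
    have hi' : i < (cands A (A + B + 1) p).length := by
      simpa [cands] using mem_range.1 h1
    have e1 : (fixed A (A + B + 1) p).getD i 0 = fix p ((cands A (A + B + 1) p).getD i 0) := by
      unfold fixed
      rw [List.getD_eq_getElem?_getD, List.getD_eq_getElem?_getD, List.getElem?_map,
        List.getElem?_eq_getElem hi']
      rfl
    have e2 : (cands A (A + B + 1) p).getD i 0 < p := by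
      unfold cands
      rw [List.getD_eq_getElem?_getD, List.getElem?_map, List.getElem?_range (by simpa using h1)]
      exact cor_md_lt _
    unfold IsPrimRoot
    rw [e1]
    refine prim_fix (by omega) e2 hu1 ?_
    rw [hu2]
    exact hidx
  rw [hlen] at hbad ⊢
  calc p.size ^ B * _ ≤ p.size ^ B * (p.size ^ A * p.size) := Nat.mul_le_mul_left _ hbad
    _ = p.size ^ (A + B + 1) := by ring

end Pool.Agent.Results.MP_18a8a6_lc.EveryRoughPrime
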