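import Pool.Agent.TH415.UL.LstPoly
import Pool.Agent.TH415.UL.Uni

set_option autoImplicit false

/-! # Universal lists of candidate primitive roots -/

namespace Pool.Agent.Results.MP_18a8a6_lc.UniversalLists

open Finset

/-- `F` is computable in polynomial time: some function on bit strings computed by a Turing machine
(Mathlib's `TM2ComputableInPolyTime`) in polynomially many steps sends the binary digits of `p` to
the code of the list `F p`. -/
def PolyTimeList (F : ℕ → List ℕ) : Prop :=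
  ∃ f : List Bool → List Bool, NPC.PolyTime f ∧ ∀ p : ℕ, f (Nat.bits p) = NPC.bits (F p)

/-- the residue class of the number `g` modulo `p` generates the subgroup `Γ` of `(ℤ/p)ˣ` -/
def Generates (p : ℕ) (Γ : Subgroup (ZMod p)ˣ) (g : ℕ) : Prop :=
  ∃ u : (ZMod p)ˣ, (u : ZMod p) = (g : ZMod p) ∧ Subgroup.zpowers u = Γ

/-- `g` is a primitive root modulo `p` -/
def IsPrimRoot (p g : ℕ) : Prop := orderOf (g : ZMod p) = p - 1

/-- for every prime divisor `q` of `p - 1` the list `l` contains a number prime to `p` that is not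
a `q`-th power residue modulo `p` (the entry may depend on `q`) -/
def HasNonresidues (p : ℕ) (l : List ℕ) : Prop :=
  ∀ q : ℕ, q.Prime → q ∣ p - 1 →
    ∃ x ∈ l, (x : ZMod p) ≠ 0 ∧ (x : ZMod p) ^ ((p - 1) / q) ≠ 1

section aux

open TH415.UL

theorem prim_of_gen {p g : ℕ} (hp : p.Prime) (h : Generates p ⊤ g) : IsPrimRoot p g := by
  have : Fact p.Prime := ⟨hp⟩
  obtain ⟨u, hu1, hu2⟩ := h
  unfold IsPrimRoot
  rw [← hu1, orderOf_units, ← Nat.card_zpowers, hu2, Subgroup.card_top,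
    Nat.card_eq_fintype_card, ZMod.card_units]

theorem top_of_nonres {p : ℕ} (hp : p.Prime) {l : List ℕ} (h : HasNonresidues p l)
    (Γ : Subgroup (ZMod p)ˣ)
    (hΓ : ∀ x ∈ l, ∀ u : (ZMod p)ˣ, (u : ZMod p) = ((x : ℕ) : ZMod p) → u ∈ Γ) : Γ = ⊤ := by
  have : Fact p.Prime := ⟨hp⟩
  rw [← Subgroup.index_eq_one]
  by_contra hne
  obtain ⟨q, hq, hqi⟩ := Nat.exists_prime_and_dvd hne
  have hcard : Nat.card Γ * Γ.index = p - 1 := by
    rw [Subgroup.card_mul_index, Nat.card_eq_fintype_card, ZMod.card_units]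
  obtain ⟨k, hk⟩ := hqi
  have h1 : (p - 1) / q = Nat.card Γ * k := by
    rw [← hcard, hk]
    rw [show Nat.card Γ * (q * k) = q * (Nat.card Γ * k) by ring]
    exact Nat.mul_div_cancel_left _ hq.pos
  obtain ⟨x, hx, hx0, hx1⟩ := h q hq ⟨Nat.card Γ * k, by rw [← hcard, hk]; ring⟩
  apply hx1
  have hu : Units.mk0 _ hx0 ∈ Γ := hΓ x hx _ rfl
  have h2 : (Units.mk0 _ hx0 : (ZMod p)ˣ) ^ Nat.card Γ = 1 := by
    have h3 : (⟨_, hu⟩ : Γ) ^ Nat.card Γ = 1 := pow_card_eq_one'
    exact congrArg Subtype.val h3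
  have h4 : (Units.mk0 _ hx0 : (ZMod p)ˣ) ^ ((p - 1) / q) = 1 := by
    rw [h1, pow_mul, h2, one_pow]
  have h5 := congrArg (fun u : (ZMod p)ˣ => (u : ZMod p)) h4
  simpa using h5

theorem nonres_of_prim {p g : ℕ} (hp : p.Prime) (h : IsPrimRoot p g) {l : List ℕ} (hg : g ∈ l) :
    HasNonresidues p l := by
  intro q hq hqp
  have hp1 : 0 < p - 1 := by have := hp.two_le; omega
  refine ⟨g, hg, ?_, ?_⟩
  · intro h0
    unfold IsPrimRoot at h
    have : Fact p.Prime := ⟨hp⟩
    rw [h0, orderOf_eq_zero_iff'.2] at h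
    · omega
    · intro n hn
      rw [zero_pow hn.ne']
      exact zero_ne_one
  · intro h1
    have h2 := orderOf_dvd_of_pow_eq_one h1
    have h3 : 0 < (p - 1) / q := Nat.div_pos (Nat.le_of_dvd hp1 hqp) hq.pos
    have h4 := Nat.le_of_dvd h3 h2
    unfold IsPrimRoot at h
    rw [h] at h4
    have h5 := Nat.div_lt_self hp1 hq.one_lt
    omega

end aux

open Classical in
/-- **Universal lists.** There are polynomial-time computable lists `F 0 p, F 1 p, F 2 p, …` and
subgroups `Γ c p` of `(ℤ/p)ˣ` such that, `n = size p` being the number of binary digits of `p`: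
* for every `c` and EVERY prime `p` all but a fraction `n ^ (-c)` of the entries of `F c p`
  generate `Γ c p`;
* for every polynomial-time computable list `G` whatsoever there are `c₀` and `p₀` such that for
  `c ≥ c₀` and every prime `p ≥ p₀` the group `Γ c p` contains all entries of `G p` prime to `p`,
  and, if for every prime `q ∣ p - 1` some entry of `G p` is a `q`-th power nonresidue modulo `p`
  (for example if `G p` contains a primitive root), then all but a fraction `n ^ (-c)` of the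
  entries of `F c p` are primitive roots modulo `p`.
Consequently the following are equivalent:
* some polynomial-time computable list contains a primitive root modulo `p` for all large primes
  `p`;
* some polynomial-time computable list contains, for all large primes `p` and all primes
  `q ∣ p - 1`, a `q`-th power nonresidue modulo `p`;
* for all large `c` and all large primes `p`, all but a fraction `n ^ (-c)` of the entries of
  `F c p` are primitive roots modulo `p`. -/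
theorem result :
    ∃ (F : ℕ → ℕ → List ℕ) (Γ : ℕ → (p : ℕ) → Subgroup (ZMod p)ˣ),
      (∀ c : ℕ, PolyTimeList (F c)) ∧ (∀ c : ℕ, ∃ C : ℕ, ∀ p : ℕ, (F c p).length = p.size ^ C) ∧
      (∀ c p : ℕ, p.Prime → p.size ^ c * #{i ∈ range (F c p).length |
          ¬ Generates p (Γ c p) ((F c p).getD i 0)} ≤ (F c p).length) ∧
      (∀ G : ℕ → List ℕ, PolyTimeList G → ∃ c₀ p₀ : ℕ, ∀ c ≥ c₀, ∀ p ≥ p₀, p.Prime →
        (∀ x ∈ G p, ∀ u : (ZMod p)ˣ, (u : ZMod p) = ((x : ℕ) : ZMod p) → u ∈ Γ c p) ∧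
        (HasNonresidues p (G p) → p.size ^ c * #{i ∈ range (F c p).length |
          ¬ IsPrimRoot p ((F c p).getD i 0)} ≤ (F c p).length)) ∧
      [∃ G : ℕ → List ℕ, PolyTimeList G ∧
          ∃ p₀ : ℕ, ∀ p ≥ p₀, p.Prime → ∃ g ∈ G p, IsPrimRoot p g,
        ∃ G : ℕ → List ℕ, PolyTimeList G ∧
          ∃ p₀ : ℕ, ∀ p ≥ p₀, p.Prime → HasNonresidues p (G p),
        ∃ c₀ : ℕ, ∀ c ≥ c₀, ∃ p₀ : ℕ, ∀ p ≥ p₀, p.Prime →
          p.size ^ c * #{i ∈ range (F c p).length |
            ¬ IsPrimRoot p ((F c p).getD i 0)} ≤ (F c p).length].TFAE := by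
  choose A hA using TH415.UL.length_allOut
  set F : ℕ → ℕ → List ℕ := fun c p =>
    TH415.UL.candsL (A c + c + 1) (TH415.UL.allOut c (Nat.bits p)) p with hF
  set Γ : ℕ → (p : ℕ) → Subgroup (ZMod p)ˣ := fun c p =>
    TH415.UL.GamL p (TH415.UL.allOut c (Nat.bits p)) with hΓ
  have hlen : ∀ c p : ℕ, (F c p).length = p.size ^ (A c + c + 1) := fun c p => by
    simp [hF, TH415.UL.candsL]
  have hpoly : ∀ c : ℕ, PolyTimeList (F c) := by
    intro c
    have h : NPC.Poly (fun x : List Bool => TH415.UL.candsL (A c + c + 1)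
        (TH415.UL.allOut c (Nat.bits (NPC.valB x))) (NPC.valB x)) := by
      have hv : NPC.Poly (fun x : List Bool => NPC.valB x) := NPC.Poly.valBits NPC.Poly.id
      exact NPC.TH415UL.poly_candsL (A c + c + 1) hv
        ((NPC.TH415UL.poly_allOut c).comp (NPC.Poly.natBits hv))
    exact ⟨_, NPC.polyTime_bits h, fun p => by simp only [NPC.valB_bits]; rfl⟩
  have hgen : ∀ c p : ℕ, p.Prime → p.size ^ c * #{i ∈ range (F c p).length |
      ¬ Generates p (Γ c p) ((F c p).getD i 0)} ≤ (F c p).length := by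
    intro c p hp
    rw [hlen]
    have h1 := TH415.UL.coreL (A c + c + 1) (TH415.UL.allOut c (Nat.bits p)) p hp
    have h2 : 2 ≤ p.size := by
      have := Nat.lt_size.2 (show 2 ^ 1 ≤ p from hp.two_le)
      omega
    have h3 := hA c p h2
    calc p.size ^ c * _ ≤ p.size ^ c * ((TH415.UL.allOut c (Nat.bits p)).length * p.size) :=
          Nat.mul_le_mul_left _ h1
      _ ≤ p.size ^ c * (p.size ^ A c * p.size) :=
          Nat.mul_le_mul_left _ (Nat.mul_le_mul_right _ h3)
      _ = p.size ^ (A c + c + 1) := by ring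
  have hmem : ∀ G : ℕ → List ℕ, PolyTimeList G → ∃ c₀ p₀ : ℕ, ∀ c ≥ c₀, ∀ p ≥ p₀, p.Prime →
      ∀ x ∈ G p, ∀ u : (ZMod p)ˣ, (u : ZMod p) = ((x : ℕ) : ZMod p) → u ∈ Γ c p := by
    rintro G ⟨f, hf, hfG⟩
    obtain ⟨c₀, e₀, h⟩ := TH415.UL.mem_allOut hf
    refine ⟨c₀, 2 ^ e₀, fun c hc p hp _ x hx u hu => ?_⟩
    refine Subgroup.subset_closure ⟨x, ?_, hu⟩
    refine h c hc (Nat.bits p) ?_ (G p) (hfG p) x hx
    rw [Nat.size_eq_bits_len]
    exact Nat.lt_size.2 hp
  have hprim : ∀ G : ℕ → List ℕ, PolyTimeList G → ∃ c₀ p₀ : ℕ, ∀ c ≥ c₀, ∀ p ≥ p₀, p.Prime →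
      (∀ x ∈ G p, ∀ u : (ZMod p)ˣ, (u : ZMod p) = ((x : ℕ) : ZMod p) → u ∈ Γ c p) ∧
      (HasNonresidues p (G p) → p.size ^ c * #{i ∈ range (F c p).length |
        ¬ IsPrimRoot p ((F c p).getD i 0)} ≤ (F c p).length) := by
    intro G hG
    obtain ⟨c₀, p₀, h⟩ := hmem G hG
    refine ⟨c₀, p₀, fun c hc p hp hpp => ⟨h c hc p hp hpp, fun hN => ?_⟩⟩
    have htop := top_of_nonres hpp hN (Γ c p) (h c hc p hp hpp)
    refine le_trans (Nat.mul_le_mul_left _ (card_le_card ?_)) (hgen c p hpp)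
    intro i hi
    obtain ⟨h1, h2⟩ := mem_filter.1 hi
    refine mem_filter.2 ⟨h1, fun hg => h2 ?_⟩
    rw [htop] at hg
    exact prim_of_gen hpp hg
  refine ⟨F, Γ, hpoly, fun c => ⟨A c + c + 1, hlen c⟩, hgen, hprim, ?_⟩
  tfae_have 1 → 2 := by
    rintro ⟨G, hG, p₀, h⟩
    refine ⟨G, hG, p₀, fun p hp hpp => ?_⟩
    obtain ⟨g, hg, hg'⟩ := h p hp hpp
    exact nonres_of_prim hpp hg' hg
  tfae_have 2 → 3 := by
    rintro ⟨G, hG, p₀, h⟩
    obtain ⟨c₁, p₁, h1⟩ := hprim G hG
    exact ⟨c₁, fun c hc => ⟨max p₀ p₁, fun p hp hpp =>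
      (h1 c hc p (le_of_max_le_right hp) hpp).2 (h p (le_of_max_le_left hp) hpp)⟩⟩
  tfae_have 3 → 1 := by
    rintro ⟨c₀, h⟩
    obtain ⟨p₀, h1⟩ := h (c₀ + 1) (by omega)
    refine ⟨F (c₀ + 1), hpoly _, p₀, fun p hp hpp => ?_⟩
    have h2 := h1 p hp hpp
    have h3 : 2 ≤ p.size := by
      have := Nat.lt_size.2 (show 2 ^ 1 ≤ p from hpp.two_le)
      omega
    have h4 : 2 ≤ p.size ^ (c₀ + 1) := h3.trans (Nat.le_self_pow (by omega) _)
    have h5 : 0 < (F (c₀ + 1) p).length := by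
      rw [hlen]
      exact Nat.pow_pos (by omega)
    have h6 : #{i ∈ range (F (c₀ + 1) p).length |
        ¬ IsPrimRoot p ((F (c₀ + 1) p).getD i 0)} < (F (c₀ + 1) p).length := by
      by_contra hcon
      push Not at hcon
      have := Nat.mul_le_mul h4 hcon
      omega
    obtain ⟨i, hi, hi2⟩ : ∃ i ∈ range (F (c₀ + 1) p).length,
        IsPrimRoot p ((F (c₀ + 1) p).getD i 0) := by
      by_contra hcon
      push Not at hcon
      rw [filter_true_of_mem hcon, card_range] at h6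
      exact lt_irrefl _ h6
    refine ⟨_, ?_, hi2⟩
    rw [mem_range] at hi
    rw [List.getD_eq_getElem _ 0 hi]
    exact List.getElem_mem hi
  tfae_finish

end Pool.Agent.Results.MP_18a8a6_lc.UniversalLists
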